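import Mathlib

set_option autoImplicit false

namespace Pool.Agent.Results.MP_dcc435_co.Rational

open Matrix

/-- `X` is a psd completion of the edge vector `x` of the 5-cycle with edges `{i, i+1}`. -/
def IsCompletion (x : Fin 5 → ℚ) (X : Matrix (Fin 5) (Fin 5) ℝ) : Prop :=
  X.PosSemidef ∧ (∀ i, X i i = 1) ∧ ∀ i, X i (i + 1) = (x i : ℝ)

lemma dens (m p : ℚ) (s1 : ℝ) (h : (s1 - m) ^ 2 ≤ p) (f : ℝ → ℝ) (hf : Continuous f)
    (h0 : 0 < f s1) : ∃ r : ℚ, ((r : ℝ) - m) ^ 2 ≤ p ∧ 0 < f r := by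
  obtain ⟨ε, hε, h1⟩ := Metric.eventually_nhds_iff.1
    (hf.continuousAt.eventually (lt_mem_nhds h0))
  rcases lt_trichotomy s1 m with hm | hm | hm
  · obtain ⟨r, h2, h3⟩ := exists_rat_btwn (lt_min hm (by linarith : s1 < s1 + ε))
    have h4 := lt_min_iff.1 h3
    refine ⟨r, by nlinarith, h1 ?_⟩
    rw [Real.dist_eq, abs_lt]; constructor <;> linarith
  · exact ⟨m, hm ▸ h, hm ▸ h0⟩
  · obtain ⟨r, h2, h3⟩ := exists_rat_btwn (max_lt hm (by linarith : s1 - ε < s1))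
    have h4 := max_lt_iff.1 h2
    refine ⟨r, by nlinarith, h1 ?_⟩
    rw [Real.dist_eq, abs_lt]; constructor <;> linarith

lemma rat_of_lin {x : ℝ} {U V : ℚ} (h : (U : ℝ) + V * x = 0) (hV : V ≠ 0) : ∃ r : ℚ, x = r := by
  refine ⟨-U / V, ?_⟩
  have : (V : ℝ) ≠ 0 := by exact_mod_cast hV
  push_cast; field_simp; linarith

lemma two_int (m p n q : ℚ) (s : ℝ) (h1 : (s - m) ^ 2 ≤ p) (h2 : (s - n) ^ 2 ≤ q) :
    ∃ r : ℚ, ((r : ℝ) - m) ^ 2 ≤ p ∧ ((r : ℝ) - n) ^ 2 ≤ q := by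
  rcases h2.lt_or_eq with h | h
  · obtain ⟨r, h3, h4⟩ := dens m p s h1 (fun s => q - (s - n) ^ 2) (by fun_prop) (by linarith)
    exact ⟨r, h3, by linarith⟩
  rcases h1.lt_or_eq with h' | h'
  · obtain ⟨r, h3, h4⟩ := dens n q s h2 (fun s => p - (s - m) ^ 2) (by fun_prop) (by linarith)
    exact ⟨r, by linarith, h3⟩
  by_cases e : m = n
  · subst e
    exact ⟨m, by rw [← h']; simp; positivity, by rw [← h]; simp; positivity⟩
  · obtain ⟨r, hr⟩ := rat_of_lin (x := s) (U := m ^ 2 - n ^ 2 - p + q) (V := 2 * (n - m))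
      (by push_cast; linarith) (mul_ne_zero two_ne_zero (sub_ne_zero.2 (Ne.symm e)))
    exact ⟨r, hr ▸ h1, hr ▸ h2⟩

/-- the tight case: `s` is rational -/
lemma tight (m p n q c : ℚ) (hc : (c : ℝ) ^ 2 < 1) (s t : ℝ) (h1 : (s - m) ^ 2 = p)
    (h2 : (t - n) ^ 2 = q) (h0 : 1 + 2 * c * s * t - c ^ 2 - s ^ 2 - t ^ 2 = 0)
    (H : ∀ u v : ℝ, (u - m) ^ 2 ≤ p → (v - n) ^ 2 ≤ q →
      1 + 2 * c * u * v - c ^ 2 - u ^ 2 - v ^ 2 ≤ 0) : ∃ r : ℚ, s = r := by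
  by_contra hirr
  have hx : s - m ≠ 0 := fun h => hirr ⟨m, by linarith⟩
  have hx2 : 0 < (s - m) ^ 2 := by positivity
  have neg : ∀ v : ℝ, (v - n) ^ 2 = q →
      1 + 2 * c * (2 * m - s) * v - c ^ 2 - (2 * m - s) ^ 2 - v ^ 2 ≠ 0 := by
    intro v hv h
    have h3 := H m ((t + v) / 2) (by rw [← h1]; simp; positivity) (by nlinarith [sq_nonneg (t - v)])
    have h4 : (c * (s - m) - (t - v) / 2) ^ 2 + (1 - c ^ 2) * (s - m) ^ 2 ≤ 0 := by nlinarith
    nlinarith [sq_nonneg (c * (s - m) - (t - v) / 2), mul_pos (sub_pos.2 hc) hx2]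
  set K0 : ℚ := 1 - c ^ 2 + 2 * c * m * n - m ^ 2 - p - n ^ 2 - q with hK0
  set K1 : ℚ := 2 * c * n - 2 * m with hK1
  set K2 : ℚ := 2 * c * m - 2 * n with hK2
  set K3 : ℚ := 2 * c with hK3
  have F : ∀ u v : ℝ, (u - m) ^ 2 = p → (v - n) ^ 2 = q →
      1 + 2 * c * u * v - c ^ 2 - u ^ 2 - v ^ 2 =
        (K0 + K1 * (u - m)) + (K2 + K3 * (u - m)) * (v - n) := by
    intro u v hu hv
    rw [hK0, hK1, hK2, hK3]; push_cast
    linear_combination -hu - hv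
  have e0 := h0
  rw [F s t h1 h2] at e0
  have e1 : ((K0 ^ 2 + K1 ^ 2 * p - q * (K2 ^ 2 + K3 ^ 2 * p) : ℚ) : ℝ) +
      ((2 * K0 * K1 - 2 * q * K2 * K3 : ℚ) : ℝ) * (s - m) = 0 := by
    push_cast
    linear_combination ((K0 + K1 * (s - m)) - (K2 + K3 * (s - m)) * (t - n)) * e0 +
      (K2 + K3 * (s - m)) ^ 2 * h2 - (K1 ^ 2 - q * K3 ^ 2) * h1
  have hV : 2 * K0 * K1 - 2 * q * K2 * K3 = 0 := by
    by_contra hV
    obtain ⟨r, hr⟩ := rat_of_lin e1 hV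
    exact hirr ⟨r + m, by push_cast; linarith⟩
  rw [hV] at e1
  have hV' : (2 * K0 * K1 - 2 * q * K2 * K3 : ℝ) = 0 := by exact_mod_cast hV
  have n1 := neg t h2
  have n2 := neg (2 * n - t) (by rw [← h2]; ring)
  rw [F _ _ (by rw [← h1]; ring) h2] at n1
  rw [F _ _ (by rw [← h1]; ring) (by rw [← h2]; ring)] at n2
  apply mul_ne_zero n1 n2
  push_cast at e1
  linear_combination e1 - (s - m) * hV' - (K2 - K3 * (s - m)) ^ 2 * h2 +
    (K1 ^ 2 - q * K3 ^ 2) * h1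

lemma inner (m p c : ℝ) (hc : c ^ 2 < 1) (s t : ℝ) (h1 : (s - m) ^ 2 < p)
    (h0 : 1 + 2 * c * s * t - c ^ 2 - s ^ 2 - t ^ 2 = 0)
    (H : ∀ u : ℝ, (u - m) ^ 2 ≤ p → 1 + 2 * c * u * t - c ^ 2 - u ^ 2 - t ^ 2 ≤ 0) :
    s = c * t ∧ (t = 1 ∨ t = -1) := by
  have e : s = c * t := by
    by_contra hne
    have hh : 0 < (c * t - s) ^ 2 := by
      have : c * t - s ≠ 0 := fun h => hne (by linarith)
      positivity
    have hcont : Continuous fun l : ℝ => p - (s + l * (c * t - s) - m) ^ 2 := by fun_prop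
    obtain ⟨ε, hε, h3⟩ := Metric.eventually_nhds_iff.1
      (hcont.continuousAt.eventually (lt_mem_nhds (a := 0) (b := _) (by simpa using h1)) :
        ∀ᶠ l in nhds (0 : ℝ), 0 < p - (s + l * (c * t - s) - m) ^ 2)
    have hl : 0 < min (ε / 2) 1 := lt_min (by linarith) one_pos
    have hl1 : min (ε / 2) 1 ≤ 1 := min_le_right _ _
    have hl2 : min (ε / 2) 1 ≤ ε / 2 := min_le_left _ _
    set l := min (ε / 2) 1
    have h4 := h3 (y := l) (by rw [Real.dist_eq, sub_zero, abs_of_pos hl]; linarith)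
    have h5 := H (s + l * (c * t - s)) (by linarith)
    have h6 : l * (2 - l) * (c * t - s) ^ 2 ≤ 0 := by nlinarith
    have h7 : 0 < l * (2 - l) * (c * t - s) ^ 2 := by
      have : 0 < 2 - l := by linarith
      positivity
    linarith
  refine ⟨e, ?_⟩
  have h2 : (1 - c ^ 2) * ((t - 1) * (t + 1)) = 0 := by rw [e] at h0; linear_combination -h0
  rcases mul_eq_zero.1 ((mul_eq_zero.1 h2).resolve_left (by linarith)) with h | h
  · left; linarith
  · right; linarith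

lemma step1 (m p n q c : ℚ) (hc : (c : ℝ) ^ 2 ≤ 1) (s t : ℝ) (h1 : (s - m) ^ 2 ≤ p)
    (h2 : (t - n) ^ 2 ≤ q) (h0 : 0 ≤ 1 + 2 * c * s * t - c ^ 2 - s ^ 2 - t ^ 2) :
    ∃ u v : ℚ, ((u : ℝ) - m) ^ 2 ≤ p ∧ ((v : ℝ) - n) ^ 2 ≤ q ∧
      (0 : ℝ) ≤ 1 + 2 * c * u * v - c ^ 2 - u ^ 2 - v ^ 2 := by
  rcases hc.lt_or_eq with hc | hc
  · by_cases H : ∀ u v : ℝ, (u - m) ^ 2 ≤ p → (v - n) ^ 2 ≤ q →
        1 + 2 * c * u * v - c ^ 2 - u ^ 2 - v ^ 2 ≤ 0
    · have e := le_antisymm (H s t h1 h2) h0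
      have key : (∃ r : ℚ, s = r) ∧ ∃ r : ℚ, t = r := by
        rcases h1.lt_or_eq with a1 | a1
        · obtain ⟨b1, b2 | b2⟩ := inner m p c hc s t a1 e (fun u hu => H u t hu h2)
          · exact ⟨⟨c, by rw [b1, b2, mul_one]⟩, 1, by rw [b2]; simp⟩
          · exact ⟨⟨-c, by rw [b1, b2]; simp⟩, -1, by rw [b2]; simp⟩
        rcases h2.lt_or_eq with a2 | a2
        · obtain ⟨b1, b2 | b2⟩ := inner n q c hc t s a2 (by linarith)
            (fun u hu => by have := H s u h1 hu; linarith)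
          · exact ⟨⟨1, by rw [b2]; simp⟩, c, by rw [b1, b2, mul_one]⟩
          · exact ⟨⟨-1, by rw [b2]; simp⟩, -c, by rw [b1, b2]; simp⟩
        exact ⟨tight m p n q c hc s t a1 a2 e H, tight n q m p c hc t s a2 a1 (by linarith)
          (fun u v hu hv => by have := H v u hv hu; linarith)⟩
      obtain ⟨⟨u, rfl⟩, v, rfl⟩ := key
      exact ⟨u, v, h1, h2, h0⟩
    · push Not at H
      obtain ⟨u, v, a1, a2, a3⟩ := H
      obtain ⟨u', b1, b2⟩ := dens m p u a1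
        (fun u => 1 + 2 * c * u * v - c ^ 2 - u ^ 2 - v ^ 2) (by fun_prop) a3
      obtain ⟨v', b3, b4⟩ := dens n q v a2
        (fun v => 1 + 2 * c * u' * v - c ^ 2 - u' ^ 2 - v ^ 2) (by fun_prop) b2
      exact ⟨u', v', b1, b3, b4.le⟩
  · have e : s = c * t := by
      have : (s - c * t) ^ 2 ≤ 0 := by nlinarith
      have := pow_eq_zero_iff (two_ne_zero) |>.1 (le_antisymm this (sq_nonneg _))
      linarith
    obtain ⟨r, a1, a2⟩ := two_int m p (c * n) q s h1 (by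
      push_cast
      have : (s - c * n) ^ 2 = c ^ 2 * (t - n) ^ 2 := by rw [e]; ring
      rw [this, hc, one_mul]; exact h2)
    refine ⟨r, c * r, a1, ?_, ?_⟩
    · push_cast at a2 ⊢
      have : ((c : ℝ) * r - n) ^ 2 = (r - c * n) ^ 2 := by
        linear_combination (r ^ 2 - n ^ 2) * hc
      rw [this]; exact a2
    · push_cast
      apply le_of_eq
      linear_combination (1 - r ^ 2) * hc

lemma elim {D r w : ℚ} (hD : 0 ≤ D) (hw : 0 ≤ w) (h : r ^ 2 ≤ D * w) :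
    r / D * D = r ∧ 0 ≤ w - (r / D) ^ 2 * D := by
  rcases hD.lt_or_eq with h1 | h1
  · refine ⟨by field_simp, ?_⟩
    have : w - (r / D) ^ 2 * D = (D * w - r ^ 2) / D := by field_simp
    rw [this]; exact div_nonneg (by linarith) hD
  · subst h1
    have : r = 0 := pow_eq_zero_iff (two_ne_zero) |>.1 (le_antisymm (by simpa using h) (sq_nonneg _))
    subst this
    simpa using hw

lemma sq_le {a b s : ℚ} (ha : a ^ 2 ≤ 1) (hb : b ^ 2 ≤ 1)
    (h : (s - a * b) ^ 2 ≤ (1 - a ^ 2) * (1 - b ^ 2)) : s ^ 2 ≤ 1 := by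
  rcases ha.lt_or_eq with h1 | h1
  · by_contra h2
    have : (1 - a ^ 2) * (1 - s ^ 2) < 0 := mul_neg_of_pos_of_neg (by linarith) (by linarith)
    nlinarith [sq_nonneg (b - a * s)]
  · have h2 : s - a * b = 0 := pow_eq_zero_iff (two_ne_zero) |>.1
      (le_antisymm (by rw [h1] at h; simpa using h) (sq_nonneg _))
    have : s = a * b := by linarith
    rw [this, mul_pow, h1, one_mul]; exact hb

theorem result (x : Fin 5 → ℚ) (h : ∃ X, IsCompletion x X) :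
    ∃ X, IsCompletion x X ∧ ∀ i j, ∃ r : ℚ, X i j = (r : ℝ) := by
  obtain ⟨X, hX, hd, he⟩ := h
  have sym : ∀ i j, X j i = X i j := fun i j => by simpa using (hX.1.apply i j)
  have m2 : ∀ i j, X i j ^ 2 ≤ 1 := by
    intro i j
    have := (hX.submatrix ![i, j]).det_nonneg
    rw [det_fin_two] at this
    simp [hd, sym i j] at this
    nlinarith
  have m3 : ∀ i j k, 0 ≤ 1 + 2 * X i j * X i k * X j k - X i j ^ 2 - X i k ^ 2 - X j k ^ 2 := by
    intro i j k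
    have := (hX.submatrix ![i, j, k]).det_nonneg
    rw [det_fin_three] at this
    simp [hd, sym i j, sym i k, sym j k] at this
    nlinarith
  have e0 : X 0 1 = x 0 := he 0
  have e1 : X 1 2 = x 1 := he 1
  have e2 : X 2 3 = x 2 := he 2
  have e3 : X 3 4 = x 3 := he 3
  have e4 : X 4 0 = x 4 := he 4
  have q : ∀ i, (x i) ^ 2 ≤ 1 := fun i => by
    have := m2 i (i + 1)
    rw [he] at this
    exact_mod_cast this
  obtain ⟨s, t, a1, a2, a3⟩ := step1 (x 0 * x 1) ((1 - x 0 ^ 2) * (1 - x 1 ^ 2)) (x 3 * x 4)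
    ((1 - x 3 ^ 2) * (1 - x 4 ^ 2)) (x 2) (by exact_mod_cast q 2) (X 0 2) (X 0 3)
    (by have := m3 0 1 2; rw [e0, e1] at this; push_cast; nlinarith)
    (by have := m3 3 4 0; rw [e3, e4, sym 0 3] at this; push_cast; nlinarith)
    (by have := m3 0 2 3; rw [e2] at this; nlinarith)
  have b1 : (s - x 0 * x 1) ^ 2 ≤ (1 - x 0 ^ 2) * (1 - x 1 ^ 2) := by exact_mod_cast a1
  have b2 : (t - x 3 * x 4) ^ 2 ≤ (1 - x 3 ^ 2) * (1 - x 4 ^ 2) := by exact_mod_cast a2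
  have b3 : 0 ≤ 1 + 2 * x 2 * s * t - x 2 ^ 2 - s ^ 2 - t ^ 2 := by exact_mod_cast a3
  have hs := sq_le (q 0) (q 1) b1
  have ht := sq_le (q 3) (q 4) b2
  obtain ⟨l1, l2⟩ := elim (D := 1 - s ^ 2) (r := x 2 - s * t) (w := 1 - t ^ 2) (by linarith)
    (by linarith) (by nlinarith)
  obtain ⟨u1, u2⟩ := elim (D := 1 - s ^ 2) (r := x 1 - x 0 * s) (w := 1 - x 0 ^ 2) (by linarith)
    (by linarith [q 0]) (by nlinarith)
  obtain ⟨n1, n2⟩ := elim (D := 1 - t ^ 2) (r := x 3 - t * x 4) (w := 1 - x 4 ^ 2) (by linarith)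
    (by linarith [q 4]) (by nlinarith)
  set l := (x 2 - s * t) / (1 - s ^ 2)
  set u := (x 1 - x 0 * s) / (1 - s ^ 2)
  set n := (x 3 - t * x 4) / (1 - t ^ 2)
  let L : Matrix (Fin 5) (Fin 5) ℚ :=
    !![1, 0, 0, 0, 0; x 0, u, 0, 1, 0; s, 1, 0, 0, 0; t, l, 1, 0, 0; x 4, n * l, n, 0, 1]
  let D : Fin 5 → ℚ := ![1, 1 - s ^ 2, 1 - t ^ 2 - l ^ 2 * (1 - s ^ 2),
    1 - x 0 ^ 2 - u ^ 2 * (1 - s ^ 2), 1 - x 4 ^ 2 - n ^ 2 * (1 - t ^ 2)]
  have hY : ∀ i j, (L.map (fun r : ℚ => (r : ℝ)) * diagonal (fun i => (D i : ℝ)) *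
      (L.map (fun r : ℚ => (r : ℝ)))ᴴ) i j = ((∑ k, L i k * D k * L j k : ℚ) : ℝ) := by
    intro i j
    rw [mul_apply]
    simp [mul_diagonal]
  refine ⟨L.map (fun r : ℚ => (r : ℝ)) * diagonal (fun i => (D i : ℝ)) *
      (L.map (fun r : ℚ => (r : ℝ)))ᴴ, ⟨?_, fun i => ?_, fun i => ?_⟩, fun i j => ⟨_, hY i j⟩⟩
  · refine PosSemidef.mul_mul_conjTranspose_same (PosSemidef.diagonal fun i => ?_) _
    have : 0 ≤ D i := by
      fin_cases i
      · simp [D]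
      · simp only [D]; simpa using hs
      · simpa [D] using l2
      · simpa [D] using u2
      · simpa [D] using n2
    simpa using this
  · rw [hY]
    have : ∑ k, L i k * D k * L i k = 1 := by
      fin_cases i <;> simp [L, D, Fin.sum_univ_five] <;> ring
    rw [this]; simp
  · rw [hY]
    congr 1
    fin_cases i <;> simp [L, D, Fin.sum_univ_five]
    · linear_combination u1
    · linear_combination l1
    · linear_combination n1

end Pool.Agent.Results.MP_dcc435_co.Rational
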